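import Mathlib

set_option autoImplicit false

/-! # Subadditive functions on lattices -/

namespace Pool.Agent.R849.FC

variable {R : ℕ}

/-- functions on a lattice with the formal properties of heights of monomials -/
structure LHt (ht : (Fin R → ℤ) → ℤ) : Prop where
  nonneg : ∀ γ, 0 ≤ ht γ
  add : ∀ γ γ', ht (γ + γ') ≤ ht γ + ht γ'
  smul : ∀ (M : ℕ) γ, ht (M • γ) = M * ht γ
  neg : ∀ γ, ht (-γ) = ht γ

/-- the saturation of the subgroup generated by `D` -/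
def sat (D : Set (Fin R → ℤ)) : AddSubgroup (Fin R → ℤ) where
  carrier := {γ | ∃ M : ℕ, 0 < M ∧ M • γ ∈ AddSubgroup.closure D}
  zero_mem' := ⟨1, one_pos, by rw [smul_zero]; exact zero_mem _⟩
  add_mem' := by
    rintro x y ⟨M, hM, hx⟩ ⟨M', hM', hy⟩
    refine ⟨M * M', Nat.mul_pos hM hM', ?_⟩
    rw [smul_add]
    apply add_mem
    · rw [mul_comm, mul_smul]; exact nsmul_mem hx _
    · rw [mul_smul]; exact nsmul_mem hy _
  neg_mem' := by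
    rintro x ⟨M, hM, hx⟩
    exact ⟨M, hM, by rw [smul_neg]; exact neg_mem hx⟩

theorem mem_sat {D : Set (Fin R → ℤ)} {γ : Fin R → ℤ} :
    γ ∈ sat D ↔ ∃ M : ℕ, 0 < M ∧ M • γ ∈ AddSubgroup.closure D := Iff.rfl

theorem sat_sat (D : Set (Fin R → ℤ)) (M : ℕ) (γ : Fin R → ℤ) (hM : 0 < M) (h : M • γ ∈ sat D) :
    γ ∈ sat D := by
  obtain ⟨M', hM', h⟩ := h
  refine ⟨M' * M, Nat.mul_pos hM' hM, ?_⟩
  rw [mul_smul]
  exact h

theorem subset_sat (D : Set (Fin R → ℤ)) {γ : Fin R → ℤ} (h : γ ∈ D) : γ ∈ sat D :=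
  ⟨1, one_pos, by rw [one_smul]; exact AddSubgroup.subset_closure h⟩

theorem exists_const (D : Set (Fin R → ℤ)) (p : Fin R → ℤ) (h : p ∈ sat D) :
    ∃ c : ℕ, ∀ ht : (Fin R → ℤ) → ℤ, LHt ht → ∀ B : ℤ, 0 ≤ B → (∀ δ ∈ D, ht δ ≤ B) →
      ht p ≤ c * B := by
  have key : ∀ γ ∈ AddSubgroup.closure D, ∃ c : ℕ, ∀ ht : (Fin R → ℤ) → ℤ, LHt ht → ∀ B : ℤ,
      0 ≤ B → (∀ δ ∈ D, ht δ ≤ B) → ht γ ≤ c * B := by
    intro γ hγ
    induction hγ using AddSubgroup.closure_induction with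
    | mem x hx => exact ⟨1, fun ht _ B _ h => by simpa using h x hx⟩
    | zero =>
      refine ⟨0, fun ht h1 B _ _ => ?_⟩
      have := h1.smul 0 0
      simp only [smul_zero, Nat.cast_zero, zero_mul] at this
      rw [this]
      simp
    | add x y _ _ hx hy =>
      obtain ⟨c, hc⟩ := hx
      obtain ⟨c', hc'⟩ := hy
      refine ⟨c + c', fun ht h1 B h2 h3 => (h1.add x y).trans ?_⟩
      have h4 := hc ht h1 B h2 h3
      have h5 := hc' ht h1 B h2 h3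
      push_cast
      linarith
    | neg x _ hx =>
      obtain ⟨c, hc⟩ := hx
      exact ⟨c, fun ht h1 B h2 h3 => by rw [h1.neg]; exact hc ht h1 B h2 h3⟩
  obtain ⟨M, hM, h⟩ := h
  obtain ⟨c, hc⟩ := key _ h
  refine ⟨c, fun ht h1 B h2 h3 => ?_⟩
  have h4 := hc ht h1 B h2 h3
  rw [h1.smul] at h4
  have h5 := h1.nonneg p
  have h6 : (1 : ℤ) ≤ M := by exact_mod_cast hM
  nlinarith

/-- **Uniform constants.** -/
theorem exists_cmax (I : Finset (Fin R → ℤ)) : ∃ c : ℕ, ∀ ht : (Fin R → ℤ) → ℤ, LHt ht →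
    ∀ B : ℤ, 0 ≤ B → ∀ p ∈ I, p ∈ sat {δ | δ ∈ I ∧ ht δ ≤ B} → ht p ≤ c * B := by
  classical
  have h1 : ∀ (D : Finset (Fin R → ℤ)) (p : Fin R → ℤ), ∃ c : ℕ, p ∈ sat (D : Set (Fin R → ℤ)) →
      ∀ ht : (Fin R → ℤ) → ℤ, LHt ht → ∀ B : ℤ, 0 ≤ B → (∀ δ ∈ D, ht δ ≤ B) → ht p ≤ c * B := by
    intro D p
    by_cases h : p ∈ sat (D : Set (Fin R → ℤ))
    · obtain ⟨c, hc⟩ := exists_const _ p h
      exact ⟨c, fun _ ht h1 B h2 h3 => hc ht h1 B h2 fun δ hδ => h3 δ (by simpa using hδ)⟩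
    · exact ⟨0, fun h' => absurd h' h⟩
  choose c hc using h1
  refine ⟨(I.powerset ×ˢ I).sup fun q => c q.1 q.2, fun ht h1 B h2 p hp h3 => ?_⟩
  have h4 : ({δ | δ ∈ I ∧ ht δ ≤ B} : Set (Fin R → ℤ)) =
      ((I.filter fun δ => ht δ ≤ B : Finset (Fin R → ℤ)) : Set (Fin R → ℤ)) := by
    ext δ
    simp
  rw [h4] at h3
  have h5 := hc _ p h3 ht h1 B h2 (fun δ hδ => (Finset.mem_filter.1 hδ).2)
  refine h5.trans (mul_le_mul_of_nonneg_right ?_ h2)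
  have h6 := Finset.le_sup (f := fun q : Finset (Fin R → ℤ) × (Fin R → ℤ) => c q.1 q.2)
    (Finset.mem_product.2 ⟨Finset.mem_powerset.2 (Finset.filter_subset (fun δ => ht δ ≤ B) I), hp⟩ :
      ((I.filter fun δ => ht δ ≤ B), p) ∈ I.powerset ×ˢ I)
  exact_mod_cast h6

end Pool.Agent.R849.FC
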