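import Mathlib
import Pool.Agent.W603.LV.Root
import Pool.Agent.W603.PV.Hgt

set_option autoImplicit false

/-! # Values of functions at places -/

namespace Pool.Agent.R849.FC

open FF MvPolynomial Pool.Agent.W603.LV Pool.Agent.W603.PV

variable {K : Type} [Field K] [Algebra ℂ K] {P : Place ℂ K}

/-- the function `f` has the value `c` at the place `P` -/
def HV (P : Place ℂ K) (f : K) (c : ℂ) : Prop := Ge P 1 (f - algebraMap ℂ K c)

theorem hv_const (c : ℂ) : HV P (algebraMap ℂ K c) c := by
  unfold HV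
  rw [sub_self]
  exact Ge.zero

theorem HV.ge {f : K} {c : ℂ} (h : HV P f c) : Ge P 0 f := by
  have h1 := (Ge.mono (by norm_num : (0 : ℤ) ≤ 1) h).add (Ge.const (P := P) c)
  rwa [sub_add_cancel] at h1

theorem HV.add {f g : K} {c c' : ℂ} (h : HV P f c) (h' : HV P g c') : HV P (f + g) (c + c') := by
  unfold HV at *
  have h1 := Ge.add h h'
  rw [map_add]
  rwa [show f + g - (algebraMap ℂ K c + algebraMap ℂ K c') =
    f - algebraMap ℂ K c + (g - algebraMap ℂ K c') by ring]

theorem HV.mul {f g : K} {c c' : ℂ} (h : HV P f c) (h' : HV P g c') : HV P (f * g) (c * c') := by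
  have hg := h'.ge
  unfold HV at *
  have h1 := (Ge.mul h hg).mono (by norm_num : (1 : ℤ) ≤ 1 + 0)
  have h2 := (Ge.mul (Ge.const (P := P) c) h').mono (by norm_num : (1 : ℤ) ≤ 0 + 1)
  have h3 := h1.add h2
  rw [map_mul]
  rwa [show f * g - algebraMap ℂ K c * algebraMap ℂ K c' = (f - algebraMap ℂ K c) * g +
    algebraMap ℂ K c * (g - algebraMap ℂ K c') by ring]

theorem HV.sub {f g : K} {c c' : ℂ} (h : HV P f c) (h' : HV P g c') : HV P (f - g) (c - c') := by
  unfold HV at *
  have h1 := Ge.sub h h'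
  rw [map_sub]
  rwa [show f - g - (algebraMap ℂ K c - algebraMap ℂ K c') =
    f - algebraMap ℂ K c - (g - algebraMap ℂ K c') by ring]

theorem HV.sum {ι : Type} (s : Finset ι) {f : ι → K} {c : ι → ℂ} (h : ∀ i ∈ s, HV P (f i) (c i)) :
    HV P (∑ i ∈ s, f i) (∑ i ∈ s, c i) := by
  classical
  induction s using Finset.induction_on with
  | empty => simpa using hv_const (P := P) 0
  | insert a s ha ih =>
    rw [Finset.sum_insert ha, Finset.sum_insert ha]
    exact (h a (Finset.mem_insert_self _ _)).add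
      (ih fun i hi => h i (Finset.mem_insert_of_mem hi))

theorem HV.pow {f : K} {c : ℂ} (h : HV P f c) (n : ℕ) : HV P (f ^ n) (c ^ n) := by
  induction n with
  | zero => simpa using hv_const (P := P) 1
  | succ n ih => rw [pow_succ, pow_succ]; exact ih.mul h

theorem HV.prod {ι : Type} (s : Finset ι) {f : ι → K} {c : ι → ℂ} (h : ∀ i ∈ s, HV P (f i) (c i)) :
    HV P (∏ i ∈ s, f i) (∏ i ∈ s, c i) := by
  classical
  induction s using Finset.induction_on with
  | empty => simpa using hv_const (P := P) 1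
  | insert a s ha ih =>
    rw [Finset.prod_insert ha, Finset.prod_insert ha]
    exact (h a (Finset.mem_insert_self _ _)).mul
      (ih fun i hi => h i (Finset.mem_insert_of_mem hi))

/-- a nonzero value -/
theorem HV.unit {f : K} {c : ℂ} (h : HV P f c) (hc : c ≠ 0) : f ≠ 0 ∧ P.ord f = 0 := by
  have hc0 : algebraMap ℂ K c ≠ 0 := by rw [Ne, map_eq_zero]; exact hc
  have hoc := P.ord_const hc
  rcases h with h | h
  · rw [sub_eq_zero] at h
    rw [h]
    exact ⟨hc0, hoc⟩
  · by_cases h0 : f - algebraMap ℂ K c = 0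
    · rw [sub_eq_zero] at h0
      rw [h0]
      exact ⟨hc0, hoc⟩
    · have h1 := P.ord_add_eq hc0 h0 (by rw [hoc]; omega)
      rw [add_sub_cancel, hoc] at h1
      exact h1

theorem HV.ne_zero {f : K} {c : ℂ} (h : HV P f c) (hf : f ≠ 0) (hP : P.ord f = 0) : c ≠ 0 := by
  rintro rfl
  unfold HV at h
  rw [map_zero, sub_zero] at h
  rcases h with h | h
  · exact hf h
  · omega

theorem HV.eq_zero {c : ℂ} (h : HV P (0 : K) c) : c = 0 := by
  by_contra hc
  exact (h.unit hc).1 rfl

theorem HV.unique {f : K} {c c' : ℂ} (h : HV P f c) (h' : HV P f c') : c = c' := by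
  have h1 := h.sub h'
  rw [sub_self] at h1
  exact sub_eq_zero.1 h1.eq_zero

theorem exists_hv [IsFF ℂ K] {f : K} (hf : Ge P 0 f) : ∃ c, HV P f c :=
  Pool.Agent.W603.LV.exists_const P hf

/-- values of polynomials -/
theorem HV.aeval {σ : Type} [Fintype σ] {f : σ → K} {c : σ → ℂ} (h : ∀ a, HV P (f a) (c a))
    (G : MvPolynomial σ ℂ) : HV P (MvPolynomial.aeval f G) (eval c G) := by
  rw [aeval_def, eval₂_eq', eval_eq']
  refine HV.sum _ fun α _ => ?_
  exact (hv_const _).mul (HV.prod _ fun a _ => (h a).pow _)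

end Pool.Agent.R849.FC
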