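import Mathlib
import Pool.Agent.R849.FC.Val
import Pool.Agent.TH143.Fin
import Pool.Agent.W603.CX.Basic

set_option autoImplicit false

/-! # Morphisms from the multiplicative group: unbounded degrees -/

namespace Pool.Agent.R849.FC

open FF MvPolynomial Pool.Agent.W603.LV Pool.Agent.W603.PV Pool.Agent.TH143
open Pool.Agent.W603.CX (hgt_le_pht)
open IntermediateField

/-- there are infinitely many places -/
theorem exists_place {K : Type} [Field K] [Algebra ℂ K] [IsFF ℂ K] (T : Finset (Place ℂ K)) :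
    ∃ P, P ∉ T := by
  classical
  obtain ⟨t, ht⟩ := IsFF.exists_transcendental (k := ℂ) (K := K)
  have htc : ∀ c : ℂ, Transcendental ℂ (t - algebraMap ℂ K c) := by
    intro c h
    apply ht
    have h1 := h.add (isAlgebraic_algebraMap c)
    rwa [sub_add_cancel] at h1
  have h1 : ∀ c : ℂ, ∃ P : Place ℂ K, 0 < P.ord (t - algebraMap ℂ K c) := by
    intro c
    obtain ⟨S, hS, -, hS3⟩ := zeros (k := ℂ) (htc c)
    have h2 := IsFF.finite (htc c)
    have h3 : 0 < Module.finrank ℂ⟮t - algebraMap ℂ K c⟯ K := Module.finrank_pos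
    rw [← hS3] at h3
    obtain ⟨w, hw, -⟩ := Finset.exists_ne_zero_of_sum_ne_zero h3.ne'
    exact ⟨w, (hS w).1 hw⟩
  choose P hP using h1
  have hinj : Function.Injective P := by
    intro c c' hcc
    by_contra hne
    have hv : HV (P c) t c := Or.inr (hP c)
    have hv' : HV (P c) t c' := by
      rw [hcc]
      exact Or.inr (hP c')
    exact hne (hv.unique hv')
  by_contra hcon
  push Not at hcon
  have h4 : Set.range P ⊆ (T : Set (Place ℂ K)) := by
    rintro _ ⟨c, rfl⟩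
    exact hcon _
  exact Set.infinite_range_of_injective hinj (T.finite_toSet.subset h4)

/-- heights of elements of a field generated by one function -/
theorem hgt_sub_ge {K : Type} [Field K] [Algebra ℂ K] [IsFF ℂ K] {T g : K}
    (hT : Transcendental ℂ T) (hg : Transcendental ℂ g) (h : g ∈ ℂ⟮T⟯) : hgt ℂ T ≤ hgt ℂ g := by
  rw [hgt_eq_finrank hT, hgt_eq_finrank hg]
  have hle : ℂ⟮g⟯ ≤ ℂ⟮T⟯ := by
    rw [adjoin_simple_le_iff]
    exact h
  have h1 := relfinrank_mul_finrank_top hle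
  have h2 := IsFF.finite hg
  have h3 : 0 < Module.finrank ℂ⟮g⟯ K := Module.finrank_pos
  rw [← h1]
  have h4 : 0 < relfinrank ℂ⟮g⟯ ℂ⟮T⟯ := by
    rcases Nat.eq_zero_or_pos (relfinrank ℂ⟮g⟯ ℂ⟮T⟯) with h5 | h5
    · rw [← h1, h5, zero_mul] at h3
      exact absurd h3 (lt_irrefl 0)
    · exact h5
  exact_mod_cast Nat.le_mul_of_pos_left _ h4

/-- the zero and the pole of the coordinate on the projective line -/
noncomputable def ZP : Finset (Place ℂ (RatFunc ℂ)) :=
  (finite_support (k := ℂ) (RatFunc.X : RatFunc ℂ)).toFinset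

theorem mem_ZP {P : Place ℂ (RatFunc ℂ)} : P ∈ ZP ↔ P.ord (RatFunc.X : RatFunc ℂ) ≠ 0 := by
  unfold ZP
  simp

theorem hgt_X : 1 ≤ hgt ℂ (RatFunc.X : RatFunc ℂ) := by
  by_contra hcon
  obtain ⟨c, hc⟩ := const_of_hgt (k := ℂ) (f := (RatFunc.X : RatFunc ℂ)) (by omega)
  exact RatFunc.transcendental_X (hc ▸ isAlgebraic_algebraMap c)

/-- polynomials vanishing outside the origin -/
theorem poly_zero' {p : Polynomial ℂ} (hp : ∀ t : ℂ, t ≠ 0 → p.eval t = 0) : p = 0 := by
  by_contra hne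
  have h3 := Polynomial.finite_setOfPred_isRoot hne
  have h4 : (Set.univ : Set ℂ) ⊆ {0} ∪ {x | p.IsRoot x} := by
    intro x _
    by_cases hx : x = 0
    · exact Or.inl hx
    · exact Or.inr (hp x hx)
  exact Set.infinite_univ (((Set.finite_singleton 0).union h3).subset h4)

theorem eval_aeval {n : ℕ} (C : Fin n → Polynomial ℂ) (G : MvPolynomial (Fin n) ℂ) (t : ℂ) :
    (aeval C G : Polynomial ℂ).eval t = eval (fun j => (C j).eval t) G := by
  have h1 := MvPolynomial.comp_aeval_apply (f := C) (Polynomial.aeval t) G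
  rw [Polynomial.coe_aeval_eq_eval] at h1
  rw [h1]
  rfl

theorem hv_poly {K : Type} [Field K] [Algebra ℂ K] {P : Place ℂ K} {f : K} {c : ℂ}
    (h : HV P f c) (q : Polynomial ℂ) : HV P (Polynomial.aeval f q) (q.eval c) := by
  rw [Polynomial.aeval_eq_sum_range, Polynomial.eval_eq_sum_range]
  refine HV.sum _ fun i _ => ?_
  rw [Algebra.smul_def]
  exact (hv_const _).mul (h.pow i)

variable {N : ℕ} {ι : Type}

/-- **Maps of unbounded degree.** -/
theorem unbounded (F : ι → MvPolynomial (Fin (N + 1)) ℂ) (Q : MvPolynomial (Fin (N + 1)) ℂ)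
    (C : Fin (N + 1) → Polynomial ℂ) (hC : IsGmCurve F Q C) (G : MvPolynomial (Fin (N + 1)) ℂ)
    {t1 : ℂ} (hG : eval (fun j => (C j).eval t1) G ≠ 0) :
    ∃ r : ℕ, ∃ V : Fin r → Fin (N + 1) → ℂ, ∀ B : ℤ, ∃ (m : Fin r → ℤ)
      (x : Fin (N + 1) → RatFunc ℂ),
      (∀ a, x a = ∑ j, (RatFunc.X : RatFunc ℂ) ^ m j * algebraMap ℂ (RatFunc ℂ) (V j a)) ∧
      x ≠ 0 ∧ (∀ i, aeval x (F i) = 0) ∧ aeval x Q ≠ 0 ∧
      (∀ P ∉ ZP, P.ord (aeval x Q) = 0) ∧ aeval x G ≠ 0 ∧ B < pht ℂ x := by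
  classical
  obtain ⟨D, hD⟩ : ∃ D, ∀ j, (C j).natDegree < D := by
    refine ⟨Finset.univ.sup (fun j => (C j).natDegree) + 1, fun j => ?_⟩
    exact Nat.lt_succ_of_le (Finset.le_sup (f := fun j => (C j).natDegree) (Finset.mem_univ j))
  refine ⟨D, fun i j => (C j).coeff i, fun B => ?_⟩
  obtain ⟨M, hM⟩ : ∃ M : ℕ, M = (B + 1).toNat + 1 := ⟨_, rfl⟩
  obtain ⟨τ, hτ⟩ : ∃ τ : RatFunc ℂ, τ = RatFunc.X ^ M := ⟨_, rfl⟩
  have hτt : Transcendental ℂ τ := hτ ▸ RatFunc.transcendental_X.pow (by omega)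
  have hX0 : (RatFunc.X : RatFunc ℂ) ≠ 0 := RatFunc.X_ne_zero
  have hτh : B < hgt ℂ τ := by
    rw [hτ, hgt_pow hX0]
    have h1 : (M : ℤ) * 1 ≤ M * hgt ℂ (RatFunc.X : RatFunc ℂ) :=
      mul_le_mul_of_nonneg_left hgt_X (by positivity)
    refine lt_of_lt_of_le ?_ h1
    rw [hM]
    push_cast
    omega
  obtain ⟨x, hx⟩ : ∃ x : Fin (N + 1) → RatFunc ℂ, x = fun j => Polynomial.aeval τ (C j) :=
    ⟨_, rfl⟩
  have hval : ∀ H : MvPolynomial (Fin (N + 1)) ℂ, aeval x H =
      Polynomial.aeval τ (aeval C H : Polynomial ℂ) := fun H => by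
    rw [hx]
    exact (MvPolynomial.comp_aeval_apply (f := C) (Polynomial.aeval τ) H).symm
  have hne : ∀ q : Polynomial ℂ, q ≠ 0 → Polynomial.aeval τ q ≠ 0 := fun q hq h0 =>
    hτt ⟨q, hq, h0⟩
  have hQv : ∀ P ∉ ZP, aeval x Q ≠ 0 ∧ P.ord (aeval x Q) = 0 := by
    intro P hP
    rw [mem_ZP, not_not] at hP
    obtain ⟨c, hc⟩ := exists_hv (P := P) (Or.inr hP.ge : Ge P 0 (RatFunc.X : RatFunc ℂ))
    have hc0 := hc.ne_zero hX0 hP
    have h1 := hv_poly (hc.pow M) (aeval C Q : Polynomial ℂ)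
    rw [← hτ, ← hval, eval_aeval] at h1
    exact h1.unit (hC.mem _ (pow_ne_zero _ hc0)).2
  obtain ⟨P0, hP0⟩ := exists_place ZP
  refine ⟨fun i => M * i, x, fun a => ?_, ?_, fun i => ?_, (hQv P0 hP0).1, fun P hP => (hQv P hP).2,
    ?_, ?_⟩
  · rw [hx]
    show Polynomial.aeval τ (C a) = _
    rw [Polynomial.aeval_eq_sum_range' (hD a), Finset.sum_range]
    refine Finset.sum_congr rfl fun i _ => ?_
    rw [Algebra.smul_def, mul_comm, hτ, ← pow_mul]
    congr 1
  · obtain ⟨j, hj⟩ := hC.ne 1 one_ne_zero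
    apply Function.ne_iff.2
    refine ⟨j, ?_⟩
    rw [hx]
    apply hne
    rintro h0
    rw [h0, Polynomial.eval_zero] at hj
    exact hj rfl
  · rw [hval]
    rw [poly_zero' (p := (aeval C (F i) : Polynomial ℂ)) fun t ht => by
      rw [eval_aeval]
      exact (hC.mem t ht).1 i, map_zero]
  · rw [hval]
    apply hne
    intro h0
    apply hG
    rw [← eval_aeval, h0, Polynomial.eval_zero]
  · obtain ⟨s, t, hs, ht, j, l, hjl⟩ := hC.nonconst
    have hCne : ∀ j l, (C j).eval s * (C l).eval t ≠ (C l).eval s * (C j).eval t → C j ≠ 0 := by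
      intro j l h h0
      apply h
      rw [h0]
      simp
    have hCj : C j ≠ 0 := hCne j l hjl
    have hCl : C l ≠ 0 := hCne l j hjl.symm
    have hxj : x j ≠ 0 := by rw [hx]; exact hne _ hCj
    have hxl : x l ≠ 0 := by rw [hx]; exact hne _ hCl
    refine lt_of_lt_of_le hτh (le_trans ?_ (hgt_le_pht x hxj hxl))
    apply hgt_sub_ge hτt
    · -- the ratio is not constant
      intro halg
      have h1 := IsAlgClosed.degree_eq_one_of_irreducible ℂ (minpoly.irreducible halg.isIntegral)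
      obtain ⟨c, hc⟩ := minpoly.mem_range_of_degree_eq_one ℂ _ h1
      have h2 : Polynomial.aeval τ (C j - Polynomial.C c * C l) = 0 := by
        rw [map_sub, map_mul, Polynomial.aeval_C]
        have h3 : x j / x l = algebraMap ℂ (RatFunc ℂ) c := hc.symm
        rw [div_eq_iff hxl, hx] at h3
        have h4 : Polynomial.aeval τ (C j) = algebraMap ℂ (RatFunc ℂ) c *
          Polynomial.aeval τ (C l) := h3
        rw [h4, sub_self]
      have h3 : C j - Polynomial.C c * C l = 0 := by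
        by_contra h
        exact hne _ h h2
      rw [sub_eq_zero] at h3
      apply hjl
      rw [h3]
      simp only [Polynomial.eval_mul, Polynomial.eval_C]
      ring
    · have h1 : ∀ q : Polynomial ℂ, Polynomial.aeval τ q ∈ ℂ⟮τ⟯ := fun q =>
        IntermediateField.algebra_adjoin_le_adjoin ℂ _
          (Polynomial.aeval_mem_adjoin_singleton ℂ τ)
      rw [hx]
      exact div_mem (h1 _) (h1 _)

end Pool.Agent.R849.FC
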