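import Mathlib
import Pool.Agent.R849.UP.Key

set_option autoImplicit false

/-! # Degrees of the coefficients of `G (∑ Y_(j,a) X_j)` -/

namespace Pool.Agent.R849.FC

open MvPolynomial Pool.Agent.R849.UP

variable {R n : ℕ}

theorem ex_aeval {K : Type} [Field K] [Algebra ℂ K] (G : MvPolynomial (Fin n) ℂ) (y : Fin R → K)
    (Y : Fin R × Fin n → K) :
    eval₂ ((aeval Y : MvPolynomial (Fin R × Fin n) ℂ →ₐ[ℂ] K) :
      MvPolynomial (Fin R × Fin n) ℂ →+* K) y (ex G) =
      aeval (fun a => ∑ j, Y (j, a) * y j) G := by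
  unfold ex
  rw [aeval_def]
  have h1 := hom_eval₂ G (algebraMap ℂ (MvPolynomial (Fin R) (MvPolynomial (Fin R × Fin n) ℂ)))
    (eval₂Hom ((aeval Y : MvPolynomial (Fin R × Fin n) ℂ →ₐ[ℂ] K) :
      MvPolynomial (Fin R × Fin n) ℂ →+* K) y) (fun a => ∑ j, C (X (j, a)) * X j)
  rw [coe_eval₂Hom] at h1
  rw [h1, aeval_def]
  have h2 : (fun a => eval₂ ((aeval Y : MvPolynomial (Fin R × Fin n) ℂ →ₐ[ℂ] K) :
      MvPolynomial (Fin R × Fin n) ℂ →+* K) y (∑ j, C (X (j, a)) * X j)) =
      fun a => ∑ j, Y (j, a) * y j := by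
    funext a
    rw [← coe_eval₂Hom, map_sum]
    refine Finset.sum_congr rfl fun j _ => ?_
    rw [map_mul, coe_eval₂Hom, eval₂_C, eval₂_X]
    simp
  rw [h2]
  congr 1
  refine RingHom.ext fun a => ?_
  rw [RingHom.comp_apply, MvPolynomial.algebraMap_apply, coe_eval₂Hom, eval₂_C]
  simp

/-- all coefficients of `p` have total degree at most `D` -/
def CDeg {σ τ : Type} (p : MvPolynomial σ (MvPolynomial τ ℂ)) (D : ℕ) : Prop :=
  ∀ m, (coeff m p).totalDegree ≤ D

variable {σ τ : Type}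

theorem CDeg.mono {p : MvPolynomial σ (MvPolynomial τ ℂ)} {D D' : ℕ} (h : CDeg p D)
    (hD : D ≤ D') : CDeg p D' := fun m => (h m).trans hD

theorem CDeg.sum {ι : Type} (s : Finset ι) (p : ι → MvPolynomial σ (MvPolynomial τ ℂ)) {D : ℕ}
    (h : ∀ i ∈ s, CDeg (p i) D) : CDeg (∑ i ∈ s, p i) D := by
  intro m
  rw [coeff_sum]
  exact totalDegree_finsetSum_le fun i hi => h i hi m

theorem CDeg.mul {p q : MvPolynomial σ (MvPolynomial τ ℂ)} {D D' : ℕ} (hp : CDeg p D)
    (hq : CDeg q D') : CDeg (p * q) (D + D') := by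
  classical
  intro m
  rw [coeff_mul]
  refine totalDegree_finsetSum_le fun i _ => ?_
  exact (totalDegree_mul _ _).trans (add_le_add (hp _) (hq _))

theorem CDeg.one : CDeg (1 : MvPolynomial σ (MvPolynomial τ ℂ)) 0 := by
  classical
  intro m
  rw [coeff_one]
  split_ifs
  · simp
  · simp

theorem CDeg.pow {p : MvPolynomial σ (MvPolynomial τ ℂ)} {D : ℕ} (hp : CDeg p D) (n : ℕ) :
    CDeg (p ^ n) (n * D) := by
  induction n with
  | zero => rw [pow_zero, zero_mul]; exact CDeg.one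
  | succ n ih => rw [pow_succ, Nat.succ_mul]; exact ih.mul hp

theorem CDeg.prod {ι : Type} (s : Finset ι) (p : ι → MvPolynomial σ (MvPolynomial τ ℂ))
    (D : ι → ℕ) (h : ∀ i ∈ s, CDeg (p i) (D i)) : CDeg (∏ i ∈ s, p i) (∑ i ∈ s, D i) := by
  classical
  induction s using Finset.induction_on with
  | empty => simpa using CDeg.one
  | insert a s ha ih =>
    rw [Finset.prod_insert ha, Finset.sum_insert ha]
    exact (h a (Finset.mem_insert_self _ _)).mul
      (ih fun i hi => h i (Finset.mem_insert_of_mem hi))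

theorem CDeg.X' (j : σ) : CDeg (X j : MvPolynomial σ (MvPolynomial τ ℂ)) 0 := by
  classical
  intro m
  rw [coeff_X']
  split_ifs
  · simp
  · simp

theorem CDeg.C' (c : MvPolynomial τ ℂ) : CDeg (C c : MvPolynomial σ (MvPolynomial τ ℂ))
    c.totalDegree := by
  classical
  intro m
  rw [coeff_C]
  split_ifs
  · exact le_rfl
  · simp

theorem ex_CDeg {G : MvPolynomial (Fin n) ℂ} {d : ℕ} (hG : G.totalDegree ≤ d) :
    CDeg (ex G : MvPolynomial (Fin R) (MvPolynomial (Fin R × Fin n) ℂ)) d := by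
  classical
  unfold ex
  rw [aeval_def, eval₂_eq']
  refine CDeg.sum _ _ fun α hα => ?_
  have h0 : CDeg (algebraMap ℂ (MvPolynomial (Fin R) (MvPolynomial (Fin R × Fin n) ℂ))
      (coeff α G)) 0 := by
    have h1 := CDeg.C' (σ := Fin R) (C (coeff α G) : MvPolynomial (Fin R × Fin n) ℂ)
    rw [totalDegree_C] at h1
    exact h1
  have h2 := h0.mul (CDeg.prod (Finset.univ : Finset (Fin n))
    (fun a => (∑ j, C (X (j, a)) * X j : MvPolynomial (Fin R) (MvPolynomial (Fin R × Fin n) ℂ)) ^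
      α a) (fun a => α a * 1) (fun a _ => ?_))
  · refine h2.mono ?_
    rw [zero_add]
    simp only [mul_one]
    refine le_trans ?_ hG
    have h3 := le_totalDegree hα
    rwa [Finsupp.sum_fintype _ _ (by simp)] at h3
  · refine CDeg.pow (CDeg.sum _ _ fun j _ => ?_) _
    have h3 := (CDeg.C' (σ := Fin R) (X (j, a) : MvPolynomial (Fin R × Fin n) ℂ)).mul
      (CDeg.X' (τ := Fin R × Fin n) j)
    rw [totalDegree_X, add_zero] at h3
    exact h3

theorem ex_totalDegree {G : MvPolynomial (Fin n) ℂ} {d : ℕ} (hG : G.totalDegree ≤ d) :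
    (ex G : MvPolynomial (Fin R) (MvPolynomial (Fin R × Fin n) ℂ)).totalDegree ≤ d := by
  classical
  unfold ex
  rw [aeval_def, eval₂_eq']
  refine totalDegree_finsetSum_le fun α hα => ?_
  refine (totalDegree_mul _ _).trans ?_
  have h0 : (algebraMap ℂ (MvPolynomial (Fin R) (MvPolynomial (Fin R × Fin n) ℂ))
      (coeff α G)).totalDegree = 0 := totalDegree_C (C (coeff α G) : MvPolynomial _ ℂ)
  rw [h0, zero_add]
  refine (totalDegree_finset_prod _ _).trans ?_
  refine le_trans (b := ∑ a, α a) (Finset.sum_le_sum fun a _ => ?_) ?_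
  · refine (totalDegree_pow _ _).trans ?_
    have h1 : (∑ j, C (X (j, a)) * X j : MvPolynomial (Fin R) (MvPolynomial (Fin R × Fin n) ℂ)).totalDegree ≤ 1 := by
      refine totalDegree_finsetSum_le fun j _ => ?_
      refine (totalDegree_mul _ _).trans ?_
      rw [totalDegree_C, totalDegree_X]
    calc α a * _ ≤ α a * 1 := Nat.mul_le_mul_left _ h1
      _ = α a := mul_one _
  · refine le_trans ?_ hG
    have h3 := le_totalDegree hα
    rwa [Finsupp.sum_fintype _ _ (by simp)] at h3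

end Pool.Agent.R849.FC
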