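import Mathlib
import Pool.Agent.R849.FC.Comb
import Pool.Agent.R849.FC.Val

set_option autoImplicit false

/-! # Parts of a unit equation with small coefficients -/

namespace Pool.Agent.R849.FC

open FF MvPolynomial Pool.Agent.W603.LV Pool.Agent.W603.PV

variable {K : Type} [Field K] [Algebra ℂ K] {R : ℕ}

/-- monomials with integral exponents -/
noncomputable def mo (u : Fin R → K) (γ : Fin R → ℤ) : K := ∏ j, u j ^ γ j

theorem mo_ne {u : Fin R → K} (hu : ∀ j, u j ≠ 0) (γ : Fin R → ℤ) : mo u γ ≠ 0 :=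
  Finset.prod_ne_zero_iff.2 fun j _ => zpow_ne_zero _ (hu j)

theorem mo_add {u : Fin R → K} (hu : ∀ j, u j ≠ 0) (γ γ' : Fin R → ℤ) :
    mo u (γ + γ') = mo u γ * mo u γ' := by
  unfold mo
  rw [← Finset.prod_mul_distrib]
  exact Finset.prod_congr rfl fun j _ => zpow_add₀ (hu j) _ _

theorem mo_neg (u : Fin R → K) (γ : Fin R → ℤ) : mo u (-γ) = (mo u γ)⁻¹ := by
  unfold mo
  rw [← Finset.prod_inv_distrib]
  refine Finset.prod_congr rfl fun j _ => ?_
  rw [Pi.neg_apply, zpow_neg]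

theorem mo_nat (u : Fin R → K) (m : Fin R →₀ ℕ) :
    mo u (fun j => (m j : ℤ)) = ∏ j, u j ^ m j := by
  unfold mo
  exact Finset.prod_congr rfl fun j _ => zpow_natCast _ _

variable [IsFF ℂ K]

theorem mo_lht {u : Fin R → K} (hu : ∀ j, u j ≠ 0) : LHt (fun γ => hgt ℂ (mo u γ)) where
  nonneg γ := hgt_nonneg _
  add γ γ' := by
    rw [mo_add hu]
    exact hgt_mul (mo_ne hu _) (mo_ne hu _)
  smul M γ := by
    have h1 : mo u (M • γ) = mo u γ ^ M := by
      unfold mo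
      rw [← Finset.prod_pow]
      refine Finset.prod_congr rfl fun j _ => ?_
      rw [Pi.smul_apply, nsmul_eq_mul, mul_comm, zpow_mul, zpow_natCast]
    rw [h1, hgt_pow (mo_ne hu _)]
  neg γ := by rw [mo_neg, hgt_inv]

/-- the number of zeros and poles of finitely many functions -/
theorem card_supp {ι : Type} (A : Finset ι) (c : ι → K) (T : Finset (Place ℂ K))
    (hT : ∀ P ∈ T, ∃ i ∈ A, P.ord (c i) ≠ 0) : (T.card : ℤ) ≤ 2 * ∑ i ∈ A, hgt ℂ (c i) := by
  classical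
  obtain ⟨T1, hT1⟩ : ∃ T1, T1 = T.filter (fun P => ∃ i ∈ A, P.ord (c i) < 0) := ⟨_, rfl⟩
  obtain ⟨T2, hT2⟩ : ∃ T2, T2 = T.filter (fun P => ∃ i ∈ A, P.ord (c i)⁻¹ < 0) := ⟨_, rfl⟩
  have h1 : (T1.card : ℤ) ≤ ∑ i ∈ A, hgt ℂ (c i) :=
    card_poles A c T1 fun P hP => by rw [hT1] at hP; exact (Finset.mem_filter.1 hP).2
  have h2 : (T2.card : ℤ) ≤ ∑ i ∈ A, hgt ℂ (c i)⁻¹ :=
    card_poles A (fun i => (c i)⁻¹) T2 fun P hP => by rw [hT2] at hP; exact (Finset.mem_filter.1 hP).2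
  have h3 : ∑ i ∈ A, hgt ℂ (c i)⁻¹ = ∑ i ∈ A, hgt ℂ (c i) :=
    Finset.sum_congr rfl fun i _ => hgt_inv _
  have h4 : T ⊆ T1 ∪ T2 := by
    intro P hP
    obtain ⟨i, hi, h⟩ := hT P hP
    rcases lt_or_gt_of_ne h with h | h
    · refine Finset.mem_union_left _ ?_
      rw [hT1]
      exact Finset.mem_filter.2 ⟨hP, i, hi, h⟩
    · refine Finset.mem_union_right _ ?_
      rw [hT2]
      exact Finset.mem_filter.2 ⟨hP, i, hi, by rw [P.ord_inv]; omega⟩
  have h5 : T.card ≤ T1.card + T2.card := (Finset.card_le_card h4).trans (Finset.card_union_le _ _)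
  have h6 : (T.card : ℤ) ≤ T1.card + T2.card := by exact_mod_cast h5
  linarith

/-- **The parts of a unit equation with small coefficients.** -/
theorem parts (S : Finset (Place ℂ K)) (u : Fin R → K) (hu : ∀ j, u j ≠ 0)
    (huS : ∀ j, ∀ P ∉ S, P.ord (u j) = 0) (A : Finset (Fin R →₀ ℕ)) {s : ℕ} (hs : A.card ≤ s)
    (c : (Fin R →₀ ℕ) → K) {h : ℤ} (hh : 0 ≤ h) (hc : ∀ m ∈ A, hgt ℂ (c m) ≤ h)
    (hrel : ∑ m ∈ A, c m * ∏ j, u j ^ m j = 0) {B : ℤ}
    (hB : s * (((s - 1) ^ 2 + 1 : ℕ) * tri s *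
      (max (canDeg ℂ K + S.card) 0 + 2 * (s * h))) + 2 * h ≤ B)
    (b : Fin R → ℤ)
    (hb : ∀ m ∈ A, ∀ m' ∈ A, hgt ℂ (mo u (fun j => (m j : ℤ) - m' j)) ≤ B →
      ∑ j, (m j : ℤ) * b j = ∑ j, (m' j : ℤ) * b j) (v : ℤ) :
    ∑ m ∈ A.filter (fun m => ∑ j, (m j : ℤ) * b j = v), c m * ∏ j, u j ^ m j = 0 := by
  classical
  obtain ⟨A0, hA0⟩ : ∃ A0, A0 = A.filter (fun m => c m ≠ 0) := ⟨_, rfl⟩
  have hA0A : ∀ m ∈ A0, m ∈ A := fun m hm => by rw [hA0] at hm; exact (Finset.mem_filter.1 hm).1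
  have hA0c : ∀ m ∈ A0, c m ≠ 0 := fun m hm => by rw [hA0] at hm; exact (Finset.mem_filter.1 hm).2
  have hA0s : A0.card ≤ s := by
    refine le_trans (Finset.card_le_card ?_) hs
    exact fun m hm => hA0A m hm
  obtain ⟨T, hT⟩ : ∃ T, T = A0.biUnion fun m => (finite_support (k := ℂ) (c m)).toFinset :=
    ⟨_, rfl⟩
  have hTm : ∀ P, P ∈ T ↔ ∃ m ∈ A0, P.ord (c m) ≠ 0 := by
    intro P
    rw [hT, Finset.mem_biUnion]
    simp
  have hTc : (T.card : ℤ) ≤ 2 * (s * h) := by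
    have h1 := card_supp A0 c T fun P hP => (hTm P).1 hP
    have h2 : ∑ i ∈ A0, hgt ℂ (c i) ≤ A0.card * h := by
      have := Finset.sum_le_sum fun i hi => hc i (hA0A i hi)
      rwa [Finset.sum_const, nsmul_eq_mul] at this
    have h3 : (A0.card : ℤ) * h ≤ s * h :=
      mul_le_mul_of_nonneg_right (by exact_mod_cast hA0s) hh
    linarith
  let g : A0 → K := fun m => c m * ∏ j, u j ^ (m : Fin R →₀ ℕ) j
  have hpne : ∀ m : Fin R →₀ ℕ, ∏ j, u j ^ m j ≠ 0 := fun m =>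
    Finset.prod_ne_zero_iff.2 fun j _ => pow_ne_zero _ (hu j)
  have hg0 : ∀ m, g m ≠ 0 := fun m => mul_ne_zero (hA0c m m.2) (hpne _)
  have hsum : ∀ (p : (Fin R →₀ ℕ) → Prop) [DecidablePred p],
      ∑ m ∈ A.filter p, c m * ∏ j, u j ^ m j =
      ∑ m ∈ (Finset.univ : Finset A0).filter (fun m : A0 => p m), g m := by
    intro p _
    rw [Finset.sum_filter, Finset.sum_filter,
      Finset.sum_coe_sort A0 (fun m => if p m then c m * ∏ j, u j ^ m j else 0), hA0]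
    symm
    apply Finset.sum_filter_of_ne
    intro m _ hm h0
    apply hm
    rw [h0, zero_mul, ite_self]
  have hrel' : ∑ m, g m = 0 := by
    have h1 := hsum (fun _ => True)
    rw [Finset.filter_true, Finset.filter_true, hrel] at h1
    exact h1.symm
  have hprodord : ∀ P ∉ S, ∀ m : Fin R →₀ ℕ, P.ord (∏ j, u j ^ m j) = 0 := by
    intro P hP m
    have h1 : ∀ s : Finset (Fin R), P.ord (∏ j ∈ s, u j ^ m j) = 0 := by
      intro s
      induction s using Finset.induction_on with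
      | empty => rw [Finset.prod_empty, P.ord_one]
      | insert a s ha ih =>
        rw [Finset.prod_insert ha, P.ord_mul (pow_ne_zero _ (hu a))
          (Finset.prod_ne_zero_iff.2 fun j _ => pow_ne_zero _ (hu j)), ih, P.ord_pow,
          huS a P hP, mul_zero, add_zero]
    exact h1 Finset.univ
  have hord : ∀ P ∉ S ∪ T, ∀ m, P.ord (g m) = 0 := by
    intro P hP m
    rw [Finset.mem_union, not_or] at hP
    show P.ord (c m * ∏ j, u j ^ (m : Fin R →₀ ℕ) j) = 0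
    rw [P.ord_mul (hA0c m m.2) (hpne _), hprodord P hP.1, add_zero]
    by_contra hne
    exact hP.2 ((hTm P).2 ⟨m, m.2, hne⟩)
  obtain ⟨Rel, hRe, hR1, hR2⟩ := blocks (k := ℂ) (S ∪ T) (s := s) (N := (s - 1) ^ 2 + 1)
    (by rw [Fintype.card_coe]; exact hA0s) (by omega) (by omega) g hg0 hrel' (by
      intro P hP i j
      rw [hord P hP i, hord P hP j, sub_zero]
      exact dvd_zero _)
  have hcard : max (canDeg ℂ K + ((S ∪ T).card : ℤ)) 0 ≤
      max (canDeg ℂ K + S.card) 0 + 2 * (s * h) := by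
    have h1 : ((S ∪ T).card : ℤ) ≤ S.card + T.card := by exact_mod_cast Finset.card_union_le S T
    have h2 : 0 ≤ 2 * (s * h) := by positivity
    rcases le_total (canDeg ℂ K + ((S ∪ T).card : ℤ)) 0 with h3 | h3
    · rw [max_eq_right h3]
      have := le_max_right (canDeg ℂ K + (S.card : ℤ)) 0
      linarith
    · rw [max_eq_left h3]
      have := le_max_left (canDeg ℂ K + (S.card : ℤ)) 0
      linarith
  have hcol : ∀ i j : A0, Rel i j → ∑ l, ((i : Fin R →₀ ℕ) l : ℤ) * b l =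
      ∑ l, ((j : Fin R →₀ ℕ) l : ℤ) * b l := by
    intro i j hij
    refine hb i (hA0A i i.2) j (hA0A j j.2) ?_
    have h1 := hR1 i j hij
    have h2 : mo u (fun l => ((i : Fin R →₀ ℕ) l : ℤ) - (j : Fin R →₀ ℕ) l) =
        g i / g j * (c j * (c i)⁻¹) := by
      have h3 : (fun l => ((i : Fin R →₀ ℕ) l : ℤ) - (j : Fin R →₀ ℕ) l) =
          (fun l => ((i : Fin R →₀ ℕ) l : ℤ)) + -(fun l => ((j : Fin R →₀ ℕ) l : ℤ)) := by
        funext l
        simp only [Pi.add_apply, Pi.neg_apply]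
        ring
      rw [h3, mo_add hu, mo_neg, mo_nat, mo_nat]
      have h4 := hpne i
      have h5 := hpne j
      have h6 := hA0c i i.2
      have h7 := hA0c j j.2
      show _ = (c i * ∏ l, u l ^ (i : Fin R →₀ ℕ) l) / (c j * ∏ l, u l ^ (j : Fin R →₀ ℕ) l) *
        (c j * (c i)⁻¹)
      field_simp
    rw [h2]
    have h3 := hgt_mul (k := ℂ) (div_ne_zero (hg0 i) (hg0 j))
      (mul_ne_zero (hA0c j j.2) (inv_ne_zero (hA0c i i.2)))
    have h4 := hgt_mul (k := ℂ) (hA0c j j.2) (inv_ne_zero (hA0c i i.2))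
    rw [hgt_inv] at h4
    have h5 := hc i (hA0A i i.2)
    have h6 := hc j (hA0A j j.2)
    have h7 : (s : ℤ) * (((s - 1) ^ 2 + 1 : ℕ) * tri s *
        max (canDeg ℂ K + ((S ∪ T).card : ℤ)) 0) ≤ s * (((s - 1) ^ 2 + 1 : ℕ) * tri s *
      (max (canDeg ℂ K + S.card) 0 + 2 * (s * h))) :=
      mul_le_mul_of_nonneg_left (mul_le_mul_of_nonneg_left hcard
        (mul_nonneg (by positivity) (tri_nonneg s))) (by positivity)
    linarith
  rw [hsum (fun m => ∑ j, (m j : ℤ) * b j = v)]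
  let st : Setoid A0 := ⟨Rel, hRe⟩
  rw [Finset.sum_partition st]
  refine Finset.sum_eq_zero fun q hq => ?_
  obtain ⟨m0, hm0, rfl⟩ := Finset.mem_image.1 hq
  have hm0v := (Finset.mem_filter.1 hm0).2
  apply hR2 m0
  intro j
  rw [Finset.mem_filter, Finset.mem_filter]
  constructor
  · rintro ⟨-, h1⟩
    have h2 : Rel j m0 := Quotient.exact h1
    exact hRe.symm h2
  · intro h1
    refine ⟨⟨Finset.mem_univ _, ?_⟩, ?_⟩
    · rw [← hcol m0 j h1]
      exact hm0v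
    · exact Quotient.sound (hRe.symm h1)

end Pool.Agent.R849.FC
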