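import Mathlib
import Pool.Agent.R849.FC.Deg
import Pool.Agent.R849.FC.Parts
import Pool.Agent.TH143.Fin

set_option autoImplicit false

/-! # Curves whose coordinates are sums of few units: degrees -/

namespace Pool.Agent.R849.FC

open FF MvPolynomial Pool.Agent.W603.LV Pool.Agent.W603.PV Pool.Agent.R849.UP Pool.Agent.TH143
open Pool.Agent.H159R3.Exp (Laur)

section field

variable {K : Type} [Field K]

/-- a finite sum of multiples of powers of `t` -/
theorem sum_shift' {ι : Type} [DecidableEq ι] (A : Finset ι) (e : ι → ℤ) (C : ι → K)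
    (h : ∀ v : ℤ, ∑ m ∈ A.filter (fun m => e m = v), C m = 0) (t : K) :
    ∑ m ∈ A, C m * t ^ e m = 0 := by
  rw [← Finset.sum_fiberwise_of_maps_to (t := A.image e) (g := e)
    (fun a ha => Finset.mem_image_of_mem e ha)]
  refine Finset.sum_eq_zero fun v _ => ?_
  have h1 : ∑ m ∈ A.filter (fun m => e m = v), C m * t ^ e m =
      ∑ m ∈ A.filter (fun m => e m = v), C m * t ^ v :=
    Finset.sum_congr rfl fun m hm => by rw [(Finset.mem_filter.1 hm).2]
  rw [h1, ← Finset.sum_mul, h v, zero_mul]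

theorem zpow_sum'' {ι : Type} {t : K} (ht : t ≠ 0) (s : Finset ι) (e : ι → ℤ) :
    t ^ (∑ j ∈ s, e j) = ∏ j ∈ s, t ^ e j := by
  classical
  induction s using Finset.induction_on with
  | empty => simp
  | insert a s ha ih => rw [Finset.sum_insert ha, Finset.prod_insert ha, zpow_add₀ ht, ih]

variable [Algebra ℂ K]

/-- the coefficients of a Laurent polynomial which vanishes -/
theorem coeff_zero' {ι : Type} [DecidableEq ι] (A : Finset ι) (e : ι → ℤ) (C : ι → K)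
    (h : ∀ t : ℂ, t ≠ 0 → ∑ m ∈ A, C m * algebraMap ℂ K t ^ e m = 0) (v : ℤ) :
    ∑ m ∈ A.filter (fun m => e m = v), C m = 0 := by
  classical
  obtain ⟨M, hM⟩ : ∃ M : ℕ, (∀ m ∈ A, 0 ≤ e m + M) ∧ 0 ≤ v + M := by
    refine ⟨∑ m ∈ A, (e m).natAbs + v.natAbs, fun m hm => ?_, by omega⟩
    have := Finset.single_le_sum (f := fun m => (e m).natAbs) (fun _ _ => Nat.zero_le _) hm
    have h2 : (e m).natAbs ≤ ∑ m ∈ A, (e m).natAbs := this
    omega
  let P : Polynomial K := ∑ m ∈ A, Polynomial.C (C m) * Polynomial.X ^ (e m + M).toNat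
  have hP : P = 0 := by
    have h1 : ∀ t : ℂ, t ≠ 0 → P.eval (algebraMap ℂ K t) = 0 := by
      intro t ht
      have ht' : algebraMap ℂ K t ≠ 0 := by rw [Ne, map_eq_zero]; exact ht
      simp only [P, Polynomial.eval_finsetSum, Polynomial.eval_mul, Polynomial.eval_C,
        Polynomial.eval_pow, Polynomial.eval_X]
      have h2 : ∑ m ∈ A, C m * algebraMap ℂ K t ^ (e m + M).toNat =
          (∑ m ∈ A, C m * algebraMap ℂ K t ^ e m) * algebraMap ℂ K t ^ M := by
        rw [Finset.sum_mul]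
        refine Finset.sum_congr rfl fun m hm => ?_
        rw [mul_assoc]
        congr 1
        rw [← zpow_natCast, Int.toNat_of_nonneg (hM.1 m hm), zpow_add₀ ht', zpow_natCast]
      rw [h2, h t ht, zero_mul]
    by_contra hne
    have h3 := Polynomial.finite_setOfPred_isRoot hne
    have h4 : (algebraMap ℂ K) '' {t | t ≠ 0} ⊆ {x | P.IsRoot x} := by
      rintro _ ⟨t, ht, rfl⟩
      exact h1 t ht
    have h5 : ({t : ℂ | t ≠ 0} : Set ℂ).Infinite := by
      have h6 : ({t : ℂ | t ≠ 0} : Set ℂ) = {0}ᶜ := by ext; simp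
      rw [h6]
      exact (Set.finite_singleton (0 : ℂ)).infinite_compl
    exact (h5.image (algebraMap ℂ K).injective.injOn) (h3.subset h4)
  have h5 := congrArg (fun P : Polynomial K => P.coeff (v + M).toNat) hP
  simp only [P, Polynomial.finsetSum_coeff, Polynomial.coeff_C_mul, Polynomial.coeff_X_pow,
    Polynomial.coeff_zero] at h5
  rw [← h5, Finset.sum_filter]
  refine Finset.sum_congr rfl fun m hm => ?_
  by_cases hv : e m = v
  · rw [if_pos hv, if_pos (by rw [hv]), mul_one]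
  · rw [if_neg hv, if_neg, mul_zero]
    intro h6
    apply hv
    have := hM.1 m hm
    have := hM.2
    omega

end field

variable {K : Type} [Field K] [Algebra ℂ K] [IsFF ℂ K] {R n : ℕ}

/-- monomials with bounded exponents -/
theorem card_exponents (A : Finset (Fin R →₀ ℕ)) {D : ℕ} (h : ∀ m ∈ A, ∀ j, m j ≤ D) :
    A.card ≤ (D + 1) ^ R := by
  classical
  have h1 : A.card ≤ (Fintype.piFinset (fun _ : Fin R => Finset.range (D + 1))).card := by
    refine Finset.card_le_card_of_injOn (fun m => (fun j => m j)) (fun m hm => ?_) ?_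
    · rw [Finset.mem_coe, Fintype.mem_piFinset]
      intro j
      rw [Finset.mem_range]
      exact Nat.lt_succ_of_le (h m hm j)
    · intro m _ m' _ hmm
      exact Finsupp.ext fun j => congrFun hmm j
  rwa [Fintype.card_piFinset_const, Finset.card_range] at h1

/-- the bound for heights in the blocks -/
noncomputable def bd (d R : ℕ) : ℕ :=
  (d + 2) ^ R * ((((d + 2) ^ R - 1) ^ 2 + 1) * (tri ((d + 2) ^ R)).toNat *
    (1 + 2 * ((d + 2) ^ R * d))) + 2 * d

/-- the differences of exponents -/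
noncomputable def box (d R : ℕ) : Finset (Fin R → ℤ) :=
  Fintype.piFinset (fun _ : Fin R => Finset.Icc (-((d : ℤ) + 1)) (d + 1))

theorem mem_box {d : ℕ} {γ : Fin R → ℤ} :
    γ ∈ box d R ↔ ∀ j, -((d : ℤ) + 1) ≤ γ j ∧ γ j ≤ d + 1 := by
  unfold box
  rw [Fintype.mem_piFinset]
  simp only [Finset.mem_Icc]

/-- **One parameter groups.** -/
theorem key_ff (S : Finset (Place ℂ K)) (u : Fin R → K) (hu : ∀ j, u j ≠ 0)
    (huS : ∀ j, ∀ P ∉ S, P.ord (u j) = 0) (Y : Fin R × Fin n → K) {d : ℕ} {E : ℤ}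
    (hE : max (canDeg ℂ K + S.card) 0 + ∑ p, hgt ℂ (Y p) ≤ E) (b : Fin R → ℤ)
    (hb : ∀ γ ∈ box d R, hgt ℂ (mo u γ) ≤ bd d R * E → ∑ j, γ j * b j = 0)
    (H : MvPolynomial (Fin R) (MvPolynomial (Fin R × Fin n) ℂ)) (hH : CDeg H d)
    (hHd : H.totalDegree ≤ d + 1)
    (h : eval₂ ((aeval Y : MvPolynomial (Fin R × Fin n) ℂ →ₐ[ℂ] K) :
      MvPolynomial (Fin R × Fin n) ℂ →+* K) u H = 0) (t : ℂ) (ht : t ≠ 0) :
    eval₂ ((aeval Y : MvPolynomial (Fin R × Fin n) ℂ →ₐ[ℂ] K) :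
      MvPolynomial (Fin R × Fin n) ℂ →+* K) (fun j => u j * algebraMap ℂ K t ^ b j) H = 0 := by
  classical
  have ht' : algebraMap ℂ K t ≠ 0 := by rw [Ne, map_eq_zero]; exact ht
  obtain ⟨s, hs⟩ : ∃ s, s = (d + 2) ^ R := ⟨_, rfl⟩
  have hexp : ∀ m ∈ H.support, ∀ j, m j ≤ d + 1 := by
    intro m hm j
    refine le_trans ?_ ((le_totalDegree hm).trans hHd)
    rw [Finsupp.sum_fintype _ _ (by simp)]
    exact Finset.single_le_sum (f := fun a => m a) (fun _ _ => Nat.zero_le _) (Finset.mem_univ j)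
  have hcard : H.support.card ≤ s := hs ▸ card_exponents _ hexp
  obtain ⟨χ, hχ⟩ : ∃ χ, χ = max (canDeg ℂ K + (S.card : ℤ)) 0 := ⟨_, rfl⟩
  obtain ⟨hY, hhY⟩ : ∃ hY, hY = ∑ p, hgt ℂ (Y p) := ⟨_, rfl⟩
  have hχ0 : 0 ≤ χ := hχ ▸ le_max_right _ _
  have hY0 : 0 ≤ hY := hhY ▸ Finset.sum_nonneg fun _ _ => hgt_nonneg _
  rw [← hχ, ← hhY] at hE
  have hc : ∀ m ∈ H.support, hgt ℂ (((aeval Y : MvPolynomial (Fin R × Fin n) ℂ →ₐ[ℂ] K) :
      MvPolynomial (Fin R × Fin n) ℂ →+* K) (coeff m H)) ≤ d * hY := by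
    intro m _
    refine (hgt_mvpoly Y (coeff m H)).trans ?_
    rw [← hhY]
    exact mul_le_mul_of_nonneg_right (by exact_mod_cast hH m) hY0
  obtain ⟨τ, hτ⟩ : ∃ τ : ℕ, (tri s).toNat = τ := ⟨_, rfl⟩
  have htri : tri s = (τ : ℤ) := by rw [← hτ, Int.toNat_of_nonneg (tri_nonneg s)]
  have hB : (s : ℤ) * (((s - 1) ^ 2 + 1 : ℕ) * tri s * (max (canDeg ℂ K + S.card) 0 +
      2 * (s * (d * hY)))) + 2 * (d * hY) ≤ bd d R * E := by
    unfold bd
    rw [← hs, ← hχ, hτ, htri]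
    obtain ⟨a, ha⟩ : ∃ a : ℕ, a = ((s - 1) ^ 2 + 1) * τ := ⟨_, rfl⟩
    have h1 : (((s - 1) ^ 2 + 1 : ℕ) : ℤ) * (τ : ℤ) = a := by rw [ha, Nat.cast_mul]
    have h2 : ((s * (((s - 1) ^ 2 + 1) * τ * (1 + 2 * (s * d))) + 2 * d : ℕ) : ℤ) =
        s * (a * (1 + 2 * (s * d))) + 2 * d := by
      rw [← ha]; push_cast; ring
    rw [h2, h1]
    have h3 : χ + 2 * (s * (d * hY)) ≤ (1 + 2 * (s * d)) * E := by
      have h4 : χ ≤ E := by linarith
      have h5 : 2 * ((s : ℤ) * (d * hY)) ≤ 2 * (s * (d * E)) := by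
        have : hY ≤ E := by linarith
        gcongr
      nlinarith
    have h4 : (s : ℤ) * (a * (χ + 2 * (s * (d * hY)))) ≤ s * (a * ((1 + 2 * (s * d)) * E)) := by
      gcongr
    have h5 : 2 * ((d : ℤ) * hY) ≤ 2 * (d * E) := by
      have : hY ≤ E := by linarith
      gcongr
    calc (s : ℤ) * (a * (χ + 2 * (s * (d * hY)))) + 2 * (d * hY)
        ≤ s * (a * ((1 + 2 * (s * d)) * E)) + 2 * (d * E) := add_le_add h4 h5
      _ = (s * (a * (1 + 2 * (s * d))) + 2 * d) * E := by ring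
  rw [eval₂_eq'] at h ⊢
  have hparts := parts S u hu huS H.support hcard _ (by positivity) hc h hB b (by
    intro m hm m' hm' hle
    have h1 := hb (fun j => (m j : ℤ) - m' j) (mem_box.2 fun j => ?_) hle
    · simp only [sub_mul, Finset.sum_sub_distrib] at h1
      linarith
    · have h2 := hexp m hm j
      have h3 := hexp m' hm' j
      omega)
  have h3 : ∑ m ∈ H.support, ((aeval Y : MvPolynomial (Fin R × Fin n) ℂ →ₐ[ℂ] K) :
      MvPolynomial (Fin R × Fin n) ℂ →+* K) (coeff m H) *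
        ∏ j, (u j * algebraMap ℂ K t ^ b j) ^ m j =
      ∑ m ∈ H.support, (((aeval Y : MvPolynomial (Fin R × Fin n) ℂ →ₐ[ℂ] K) :
      MvPolynomial (Fin R × Fin n) ℂ →+* K) (coeff m H) * ∏ j, u j ^ m j) *
        algebraMap ℂ K t ^ (∑ j, (m j : ℤ) * b j) := by
    refine Finset.sum_congr rfl fun m hm => ?_
    rw [mul_assoc]
    congr 1
    have h4 : algebraMap ℂ K t ^ (∑ j, (m j : ℤ) * b j) =
        ∏ j, (algebraMap ℂ K t ^ b j) ^ m j := by
      rw [zpow_sum'' ht']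
      refine Finset.prod_congr rfl fun j _ => ?_
      rw [mul_comm, zpow_mul, zpow_natCast]
    rw [h4, ← Finset.prod_mul_distrib]
    exact Finset.prod_congr rfl fun j _ => by rw [mul_pow]
  rw [h3]
  exact sum_shift' H.support (fun m => ∑ j, (m j : ℤ) * b j) _ (fun v => hparts v) _

/-- height of a sum of products -/
theorem pht_bound {N : ℕ} (x : Fin (N + 1) → K) (hx : ∃ a, x a ≠ 0) {l : K} (hl : l ≠ 0)
    (v : Fin R → K) (Y : Fin R × Fin (N + 1) → K)
    (h : ∀ a, l * x a = ∑ j, Y (j, a) * v j) :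
    pht ℂ x ≤ ∑ j, hgt ℂ (v j) + ∑ p, hgt ℂ (Y p) := by
  classical
  obtain ⟨T1, hT1⟩ := exists_supp (k := ℂ) Finset.univ x
  obtain ⟨T2, hT2⟩ := exists_supp (k := ℂ) Finset.univ v
  obtain ⟨T3, hT3⟩ := exists_supp (k := ℂ) Finset.univ Y
  obtain ⟨T4, hT4⟩ := exists_supp (k := ℂ) (Finset.univ : Finset (Fin 1)) ![l]
  obtain ⟨T, hT⟩ : ∃ T, T = T1 ∪ T2 ∪ T3 ∪ T4 := ⟨_, rfl⟩
  have h1 : ∀ a, ∀ P : Place ℂ K, P.ord (x a) ≠ 0 → P ∈ T := fun a P hP => by
    have := hT1 a (Finset.mem_univ _) P hP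
    simp [hT, this]
  have h2 : ∀ a, ∀ P : Place ℂ K, P.ord (v a) ≠ 0 → P ∈ T := fun a P hP => by
    have := hT2 a (Finset.mem_univ _) P hP
    simp [hT, this]
  have h3 : ∀ a, ∀ P : Place ℂ K, P.ord (Y a) ≠ 0 → P ∈ T := fun a P hP => by
    have := hT3 a (Finset.mem_univ _) P hP
    simp [hT, this]
  have h4 : ∀ P : Place ℂ K, P.ord l ≠ 0 → P ∈ T := fun P hP => by
    have := hT4 0 (Finset.mem_univ _) P hP
    simp [hT, this]
  have h5 : pht ℂ x = ∑ P ∈ T, (- pord P x) := by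
    unfold pht
    rw [finsum_eq_sum_of_support_subset (s := T), Finset.sum_neg_distrib]
    intro P hP
    by_contra hcon
    apply hP
    obtain ⟨j, hj, h⟩ := exists_pord P hx
    simp only
    rw [← h]
    by_contra h'; exact hcon (h1 j P h')
  have h6 : ∑ P ∈ T, P.ord l = 0 := sum_ord_finset _ T h4
  have h7 : ∑ P ∈ T, (- pord P x) = ∑ P ∈ T, (- pord P x - P.ord l) := by
    rw [Finset.sum_sub_distrib, h6, sub_zero]
  rw [h5, h7, Finset.sum_congr rfl fun j _ => hgt_finset (v j) T (h2 j),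
    Finset.sum_congr rfl fun p _ => hgt_finset (Y p) T (h3 p), Finset.sum_comm,
    Finset.sum_comm (s := (Finset.univ : Finset (Fin R × Fin (N + 1)))), ← Finset.sum_add_distrib]
  refine Finset.sum_le_sum fun P _ => ?_
  obtain ⟨a, ha, hPa⟩ := exists_pord P hx
  rw [← hPa]
  obtain ⟨M1, hM1⟩ : ∃ M1, M1 = ∑ j, max (-P.ord (v j)) 0 := ⟨_, rfl⟩
  obtain ⟨M2, hM2⟩ : ∃ M2, M2 = ∑ p, max (-P.ord (Y p)) 0 := ⟨_, rfl⟩
  rw [← hM1, ← hM2]
  have h8 : ∀ j, Ge P (-M1) (v j) := fun j => by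
    have := Finset.single_le_sum (f := fun j => max (-P.ord (v j)) 0)
      (fun _ _ => le_max_right _ _) (Finset.mem_univ j)
    have h9 : max (-P.ord (v j)) 0 ≤ M1 := by rw [hM1]; exact this
    have := le_max_left (-P.ord (v j)) 0
    exact Or.inr (by linarith)
  have h9 : ∀ p, Ge P (-M2) (Y p) := fun j => by
    have := Finset.single_le_sum (f := fun j => max (-P.ord (Y j)) 0)
      (fun _ _ => le_max_right _ _) (Finset.mem_univ j)
    have h9 : max (-P.ord (Y j)) 0 ≤ M2 := by rw [hM2]; exact this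
    have := le_max_left (-P.ord (Y j)) 0
    exact Or.inr (by linarith)
  have h10 : Ge P (-M2 + -M1) (l * x a) := by
    rw [h a]
    exact Ge.sum _ _ fun j _ => (h9 _).mul (h8 _)
  rcases h10 with h10 | h10
  · exact absurd h10 (mul_ne_zero hl ha)
  · rw [P.ord_mul hl ha] at h10
    linarith

end Pool.Agent.R849.FC
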